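import Pool.Agent.MP_f0e28a_gt.H81.Pos

open Pool.Agent.MP_f0e28a_gt.H81

/-- Every signature is realised by a facially exposed spectrahedron with facially exposed polar. -/
theorem Pool.Agent.Results.MP_f0e28a_gt.AllSignatures.result (I : Finset ℕ) (hI : I.Nonempty) :
    ∃ (n : ℕ) (S : Set (EuclideanSpace ℝ (Fin n))), IsSpectrahedron S ∧
      signature S = (I : Set ℕ) ∧ FaciallyExposed S ∧ FaciallyExposed (polar S) :=
  pos_main I hI
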