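import Pool.Agent.MP_f0e28a_gt.H81.Neg

open Pool.Agent.MP_f0e28a_gt.H81

/-- If the origin must lie in the set, the signature `{0, 2, 3}` cannot be realised. -/
theorem Pool.Agent.Results.MP_f0e28a_gt.OriginInside.result (n : ℕ)
    (S : Set (EuclideanSpace ℝ (Fin n))) (hc : IsClosed S) (hS : Convex ℝ S) (h0 : 0 ∈ S)
    (hsig : signature S = {0, 2, 3}) : ¬ (FaciallyExposed S ∧ FaciallyExposed (polar S)) :=
  fun h => neg_main hc hS h0 hsig h.1 h.2
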